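import Pool.Agent.Lib.MP_19adc1_gt.Topo

/-!
# No metrizable precompact group topology on the integers is Mackey
-/

namespace Pool.Agent.Results.MP_19adc1_gt.NoPrecompactMackey

open Pool.Agent.Lib.MP_19adc1_gt

/-- There is no metrizable precompact group topology on the additive group of the integers
which is Mackey. -/
theorem result :
    ¬ ∃ τ : TopologicalSpace ℤ, IsGroupTopology τ ∧ @TopologicalSpace.MetrizableSpace ℤ τ ∧
      IsPrecompact τ ∧ IsMackey τ :=
  no_metrizable_precompact_mackey

end Pool.Agent.Results.MP_19adc1_gt.NoPrecompactMackey
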